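import Pool.Agent.K3h30.RS.Stm

/-!
# Completely split prime ideals of a suitable extension
-/

set_option autoImplicit false
set_option linter.style.haveILetI false

open NumberField IsDedekindDomain Polynomial

noncomputable section

namespace Pool.Agent.K3h43.RS

open Pool.Agent.K3h30.RS

theorem exists_L (H : Type) [Field H] [NumberField H] (f : H[X]) :
    ∃ (L : Type) (_ : Field L) (_ : NumberField L) (_ : Algebra H L),
      (f.map (algebraMap H L)).Splits := by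
  haveI : CharZero f.SplittingField :=
    charZero_of_injective_algebraMap (algebraMap H f.SplittingField).injective
  haveI : FiniteDimensional H f.SplittingField := inferInstance
  haveI : Module.Finite ℚ f.SplittingField := Module.Finite.trans H f.SplittingField
  exact ⟨f.SplittingField, inferInstance, { }, inferInstance, SplittingField.splits f⟩

variable {F H L : Type} [Field F] [NumberField F] [Field H] [NumberField H] [Field L]
  [NumberField L]

theorem finite_quot (P : HeightOneSpectrum (𝓞 L)) : Finite (𝓞 L ⧸ P.asIdeal) :=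
  Ideal.finiteQuotientOfFreeOfNeBot P.asIdeal P.ne_bot

theorem residue [Algebra F L] (v : HeightOneSpectrum (𝓞 F)) (P : HeightOneSpectrum (𝓞 L))
    (h : P.asIdeal.comap (algebraMap (𝓞 F) (𝓞 L)) = v.asIdeal)
    (hN : Ideal.absNorm P.asIdeal = Ideal.absNorm v.asIdeal) (x : 𝓞 L) :
    ∃ y : 𝓞 F, x - algebraMap (𝓞 F) (𝓞 L) y ∈ P.asIdeal := by
  haveI := finite_quot P
  let f : 𝓞 F ⧸ v.asIdeal →+* 𝓞 L ⧸ P.asIdeal :=
    Ideal.quotientMap P.asIdeal (algebraMap (𝓞 F) (𝓞 L)) h.ge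
  have hf : Function.Injective f := Ideal.quotientMap_injective' h.le
  have hb : Function.Bijective f := by
    refine hf.bijective_of_nat_card_le ?_
    rw [Ideal.absNorm_apply, Ideal.absNorm_apply, Submodule.cardQuot_apply,
      Submodule.cardQuot_apply] at hN
    exact hN.le
  obtain ⟨y, hy⟩ := hb.2 (Ideal.Quotient.mk _ x)
  obtain ⟨y, rfl⟩ := Ideal.Quotient.mk_surjective y
  refine ⟨y, ?_⟩
  rw [← Ideal.Quotient.eq, ← hy]
  rfl

theorem pow_norm (v : HeightOneSpectrum (𝓞 F)) (y : 𝓞 F) :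
    y ^ Ideal.absNorm v.asIdeal - y ∈ v.asIdeal := by
  haveI := finite_quot v
  letI := Fintype.ofFinite (𝓞 F ⧸ v.asIdeal)
  haveI := v.isMaximal
  letI := Ideal.Quotient.field v.asIdeal
  rw [← Ideal.Quotient.eq, map_pow, Ideal.absNorm_apply, Submodule.cardQuot_apply,
    Nat.card_eq_fintype_card]
  exact FiniteField.pow_card _

/-- the number of units -/
theorem order_dvd (P : HeightOneSpectrum (𝓞 L)) (N : ℕ) (hN : 0 < N) (ζ : 𝓞 L)
    (hζ : IsPrimitiveRoot ζ N) (hNP : (N : 𝓞 L) ∉ P.asIdeal) :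
    N ∣ Ideal.absNorm P.asIdeal - 1 := by
  haveI := finite_quot P
  haveI := P.isMaximal
  letI := Ideal.Quotient.field P.asIdeal
  have h1 : IsPrimitiveRoot (Ideal.Quotient.mk P.asIdeal ζ) N := by
    refine IsPrimitiveRoot.mk_of_lt _ hN ?_ ?_
    · rw [← map_pow, hζ.pow_eq_one, map_one]
    · intro l hl hlN h
      apply hNP
      obtain ⟨n, rfl⟩ : ∃ n, N = n + 1 := ⟨N - 1, by omega⟩
      have h2 := hζ.prod_one_sub_pow_eq_order
      have h3 : ((n + 1 : ℕ) : 𝓞 L) = ∏ k ∈ Finset.range n, (1 - ζ ^ (k + 1)) := by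
        rw [h2]; push_cast; ring
      rw [h3]
      have h4 : (1 - ζ ^ (l - 1 + 1)) ∈ P.asIdeal := by
        rw [← Ideal.Quotient.eq, map_one, show l - 1 + 1 = l by omega, map_pow, h]
      exact Ideal.mem_of_dvd _ (Finset.dvd_prod_of_mem (fun k => 1 - ζ ^ (k + 1))
        (Finset.mem_range.mpr (by omega : l - 1 < n))) h4
  have h2 := h1.isUnit_unit hN.ne'
  rw [Ideal.absNorm_apply, Submodule.cardQuot_apply, ← Nat.card_units]
  rw [h2.eq_orderOf]
  exact orderOf_dvd_natCard _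

/-- units at `w` are quotients -/
theorem unit_frac (w : HeightOneSpectrum (𝓞 H)) (z : H) (hz : w.valuation H z = 1) :
    ∃ a b : 𝓞 H, a ∉ w.asIdeal ∧ b ∉ w.asIdeal ∧ z * (b : H) = (a : H) := by
  obtain ⟨n, d, hnd⟩ := w.exists_primeCompl_mul_eq_of_integer (K := H) z hz.le
  refine ⟨n, d, ?_, d.2, hnd⟩
  rw [← HeightOneSpectrum.valuation_eq_one_iff_notMem (K := H), ← hnd, map_mul, hz, one_mul]
  rw [HeightOneSpectrum.valuation_eq_one_iff_notMem]
  exact d.2

omit [NumberField L] in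
/-- a prime over a prime -/
theorem exists_over [Algebra F L] (v : HeightOneSpectrum (𝓞 F)) :
    ∃ P : HeightOneSpectrum (𝓞 L), P.asIdeal.comap (algebraMap (𝓞 F) (𝓞 L)) = v.asIdeal := by
  haveI := v.isMaximal
  obtain ⟨Q, hQ, hQv⟩ := Ideal.exists_maximal_ideal_liesOver_of_isIntegral (S := 𝓞 L) v.asIdeal
  have h1 : Q.comap (algebraMap (𝓞 F) (𝓞 L)) = v.asIdeal := ((Ideal.liesOver_iff _ _).mp hQv).symm
  refine ⟨⟨Q, hQ.isPrime, ?_⟩, h1⟩
  rintro rfl
  apply v.ne_bot
  rw [← h1, ← RingHom.ker_eq_comap_bot]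
  exact (RingHom.injective_iff_ker_eq_bot _).mp (FaithfulSMul.algebraMap_injective _ _)

/-- finitely many primes at which `x` is not a unit -/
theorem finite_lt (x : H) (hx : x ≠ 0) :
    {w : HeightOneSpectrum (𝓞 H) | w.valuation H x < 1}.Finite := by
  refine (HeightOneSpectrum.Support.finite (𝓞 H) (x⁻¹)).subset ?_
  intro w hw
  change 1 < w.valuation H x⁻¹
  rw [map_inv₀]
  exact (one_lt_inv₀ (zero_lt_iff.mpr ((_root_.map_ne_zero _).mpr hx))).mpr hw

omit [NumberField F] in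
/-- the prime ideals of `F` under these -/
theorem finite_under [Algebra F H] (x : H) (hx : x ≠ 0) :
    {v : HeightOneSpectrum (𝓞 F) | ∃ w : HeightOneSpectrum (𝓞 H), w.valuation H x < 1 ∧
      w.asIdeal.comap (algebraMap (𝓞 F) (𝓞 H)) = v.asIdeal}.Finite := by
  have h1 := (finite_lt x hx).image
    (fun w : HeightOneSpectrum (𝓞 H) => w.asIdeal.comap (algebraMap (𝓞 F) (𝓞 H)))
  refine Set.Finite.of_finite_image (f := fun v : HeightOneSpectrum (𝓞 F) => v.asIdeal)
    (h1.subset ?_) ?_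
  · rintro _ ⟨v, ⟨w, hw, hwv⟩, rfl⟩
    exact ⟨w, hw, hwv⟩
  · intro v _ v' _ h
    exact HeightOneSpectrum.ext h

theorem t_SPLIT : S_SPLIT := by
  classical
  intro F H G _ _ _ _ _ _ _ _ _ N Z hN
  let f : H[X] := (X ^ N - C 1) * ∏ z ∈ Z, (X ^ N - C (z : H))
  obtain ⟨L, _, _, _, hL⟩ := exists_L H f
  letI : Algebra F L := ((algebraMap H L).comp (algebraMap F H)).toAlgebra
  haveI : IsScalarTower F H L := IsScalarTower.of_algebraMap_eq' rfl
  have hf0 : f ≠ 0 := by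
    refine mul_ne_zero (X_pow_sub_C_ne_zero hN _) (Finset.prod_ne_zero_iff.mpr fun z _ =>
      X_pow_sub_C_ne_zero hN _)
  -- roots
  have hroot : ∀ g : H[X], g ∣ f → (g.map (algebraMap H L)).Splits := by
    intro g hg
    exact Splits.of_dvd hL (Polynomial.map_ne_zero hf0) (Polynomial.map_dvd _ hg)
  have hζ : ∃ ζ : 𝓞 L, IsPrimitiveRoot ζ N := by
    have h1 : cyclotomic N H ∣ f := by
      refine Dvd.dvd.mul_right ?_ _
      rw [map_one]
      exact cyclotomic.dvd_X_pow_sub_one N H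
    have h2 := hroot _ h1
    rw [map_cyclotomic] at h2
    obtain ⟨ζ, hζ⟩ := h2.exists_eval_eq_zero (degree_cyclotomic_pos N L hN).ne'
    have h3 : IsPrimitiveRoot ζ N := (isRoot_cyclotomic_iff_charZero hN).mp hζ
    haveI : NeZero N := ⟨hN.ne'⟩
    exact ⟨h3.toInteger, h3.toInteger_isPrimitiveRoot⟩
  obtain ⟨ζ, hζ⟩ := hζ
  have hα : ∀ z ∈ Z, ∃ α : L, α ^ N = algebraMap H L (z : H) := by
    intro z hz
    have h1 : (X ^ N - C (z : H)) ∣ f := Dvd.dvd.mul_left (Finset.dvd_prod_of_mem _ hz) _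
    have h2 := hroot _ h1
    rw [Polynomial.map_sub, Polynomial.map_pow, map_X, map_C] at h2
    obtain ⟨α, hα⟩ := h2.exists_eval_eq_zero (by
      rw [degree_X_pow_sub_C hN]
      exact_mod_cast hN.ne')
    refine ⟨α, ?_⟩
    rw [eval_sub, eval_pow, eval_X, eval_C, sub_eq_zero] at hα
    exact hα
  -- elements moved by `γ`
  have hmov : ∀ γ : G, γ ≠ 1 → ∃ a : 𝓞 H, γ • (a : H) ≠ a := by
    intro γ hγ
    by_contra hcon
    push Not at hcon
    apply hγ
    haveI : FaithfulSMul G H := IsGaloisGroup.faithful F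
    refine FaithfulSMul.eq_of_smul_eq_smul (α := H) fun x => ?_
    rw [one_smul]
    obtain ⟨c, d, hd, hx⟩ := IsFractionRing.div_surjective (A := 𝓞 H) x
    have hd0 : (algebraMap (𝓞 H) H d) ≠ 0 := by
      intro h
      exact (nonZeroDivisors.ne_zero hd)
        (FaithfulSMul.algebraMap_injective (𝓞 H) H (by rw [h, map_zero]))
    have h1 : x * algebraMap (𝓞 H) H d = algebraMap (𝓞 H) H c := by
      rw [← hx, div_mul_cancel₀ _ hd0]
    have h2 : (γ • x) * algebraMap (𝓞 H) H d = algebraMap (𝓞 H) H c := by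
      have h3 := congrArg (fun y : H => γ • y) h1
      simp only [smul_mul'] at h3
      rw [show γ • algebraMap (𝓞 H) H d = algebraMap (𝓞 H) H d from hcon d,
        show γ • algebraMap (𝓞 H) H c = algebraMap (𝓞 H) H c from hcon c] at h3
      exact h3
    exact mul_right_cancel₀ hd0 (h2.trans h1.symm)
  choose! a ha using hmov
  have hbad1 : ∀ γ : G, γ ≠ 1 → {v : HeightOneSpectrum (𝓞 F) |
      ∃ w : HeightOneSpectrum (𝓞 H), w.valuation H (γ • (a γ : H) - a γ) < 1 ∧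
      w.asIdeal.comap (algebraMap (𝓞 F) (𝓞 H)) = v.asIdeal}.Finite := fun γ hγ =>
    finite_under _ (sub_ne_zero.mpr (ha γ hγ))
  have hbad2 : {v : HeightOneSpectrum (𝓞 F) |
      v.valuation F ((N * (Module.finrank ℚ F + 1).factorial : ℕ) : F) < 1}.Finite := by
    refine finite_lt _ ?_
    exact_mod_cast mul_ne_zero hN.ne' (Nat.factorial_ne_zero _)
  have hbad : ({v : HeightOneSpectrum (𝓞 F) | ∃ γ : G, γ ≠ 1 ∧
      ∃ w : HeightOneSpectrum (𝓞 H), w.valuation H (γ • (a γ : H) - a γ) < 1 ∧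
      w.asIdeal.comap (algebraMap (𝓞 F) (𝓞 H)) = v.asIdeal} ∪
      {v : HeightOneSpectrum (𝓞 F) |
      v.valuation F ((N * (Module.finrank ℚ F + 1).factorial : ℕ) : F) < 1}).Finite := by
    refine Set.Finite.union ?_ hbad2
    refine (Set.finite_iUnion (ι := {γ : G // γ ≠ 1}) fun γ => hbad1 γ.1 γ.2).subset ?_
    rintro v ⟨γ, hγ, hv⟩
    exact Set.mem_iUnion.mpr ⟨⟨γ, hγ⟩, hv⟩
  refine ⟨L, inferInstance, inferInstance, inferInstance, hbad.toFinset, ?_⟩
  intro v hv hsp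
  rw [Set.Finite.mem_toFinset, Set.mem_union, not_or] at hv
  obtain ⟨hv1, hv2⟩ := hv
  have hinj : Function.Injective (algebraMap (𝓞 F) F) := FaithfulSMul.algebraMap_injective _ _
  -- integers
  have hM : ((N * (Module.finrank ℚ F + 1).factorial : ℕ) : 𝓞 F) ∉ v.asIdeal := by
    intro h
    apply hv2
    have h1 : v.valuation F (algebraMap (𝓞 F) F
        ((N * (Module.finrank ℚ F + 1).factorial : ℕ) : 𝓞 F)) < 1 :=
      (HeightOneSpectrum.valuation_lt_one_iff_mem (K := F) v _).mpr h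
    rw [map_natCast] at h1
    exact h1
  have hcomp : ∀ x : 𝓞 F, algebraMap (𝓞 H) (𝓞 L) (algebraMap (𝓞 F) (𝓞 H) x) =
      algebraMap (𝓞 F) (𝓞 L) x := by
    intro x
    rw [← IsScalarTower.algebraMap_apply]
  have hP : ∀ w : HeightOneSpectrum (𝓞 H),
      w.asIdeal.comap (algebraMap (𝓞 F) (𝓞 H)) = v.asIdeal →
      ∃ P : HeightOneSpectrum (𝓞 L), P.asIdeal.comap (algebraMap (𝓞 H) (𝓞 L)) = w.asIdeal ∧
        P.asIdeal.comap (algebraMap (𝓞 F) (𝓞 L)) = v.asIdeal ∧
        Ideal.absNorm P.asIdeal = Ideal.absNorm v.asIdeal := by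
    intro w hw
    obtain ⟨P, hP⟩ := exists_over (L := L) w
    have h1 : P.asIdeal.comap (algebraMap (𝓞 F) (𝓞 L)) = v.asIdeal := by
      rw [← hw, ← hP, Ideal.comap_comap]
      congr 1
    exact ⟨P, hP, h1, hsp.2 P ⟨v, rfl, h1⟩⟩
  -- residues
  have hres : ∀ w : HeightOneSpectrum (𝓞 H),
      w.asIdeal.comap (algebraMap (𝓞 F) (𝓞 H)) = v.asIdeal → ∀ x : 𝓞 H, ∃ y : 𝓞 F,
        x - algebraMap (𝓞 F) (𝓞 H) y ∈ w.asIdeal := by
    intro w hw x
    obtain ⟨P, hP1, hP2, hP3⟩ := hP w hw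
    obtain ⟨y, hy⟩ := residue v P hP2 hP3 (algebraMap (𝓞 H) (𝓞 L) x)
    refine ⟨y, ?_⟩
    rw [← hP1, Ideal.mem_comap, map_sub, hcomp]
    exact hy
  obtain ⟨w₀, hw₀⟩ := exists_over (L := H) v
  obtain ⟨P₀, hP₀1, hP₀2, hP₀3⟩ := hP w₀ hw₀
  refine ⟨?_, ?_, ?_, ?_⟩
  · rw [← hP₀3]
    refine order_dvd P₀ N hN ζ hζ ?_
    intro h
    apply hM
    push_cast
    refine Ideal.mul_mem_right _ _ ?_
    rw [← hP₀2, Ideal.mem_comap, map_natCast]
    exact h
  · by_contra hcon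
    push Not at hcon
    haveI := finite_quot v
    have h0 : ringChar (𝓞 F ⧸ v.asIdeal) ≠ 0 := by
      haveI := v.isMaximal
      haveI : Nontrivial (𝓞 F ⧸ v.asIdeal) := Ideal.Quotient.nontrivial_iff.mpr v.isPrime.ne_top
      exact CharP.ringChar_ne_zero_of_finite _
    apply hM
    obtain ⟨k, hk⟩ := Nat.dvd_factorial (Nat.pos_of_ne_zero h0) hcon
    rw [← Ideal.Quotient.eq_zero_iff_mem, map_natCast, hk]
    push_cast
    rw [ringChar.Nat.cast_ringChar]
    ring
  · intro γ hγ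
    by_contra hne
    apply hv1
    refine ⟨γ, hne, w₀, ?_, hw₀⟩
    have h1 := hγ w₀ ⟨v, rfl, hw₀⟩ (a γ)
    obtain ⟨y, hy⟩ := hres w₀ hw₀ (a γ)
    have h2 : (a γ) ^ Ideal.absNorm v.asIdeal - a γ ∈ w₀.asIdeal := by
      have h3 := pow_norm v y
      have h4 : algebraMap (𝓞 F) (𝓞 H) y ^ Ideal.absNorm v.asIdeal - algebraMap (𝓞 F) (𝓞 H) y ∈
          w₀.asIdeal := by
        rw [← map_pow, ← map_sub, ← Ideal.mem_comap, hw₀]
        exact h3
      have h5 : (a γ) ^ Ideal.absNorm v.asIdeal -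
          algebraMap (𝓞 F) (𝓞 H) y ^ Ideal.absNorm v.asIdeal ∈ w₀.asIdeal :=
        Ideal.mem_of_dvd _ (sub_dvd_pow_sub_pow _ _ _) hy
      have h6 := w₀.asIdeal.sub_mem (w₀.asIdeal.add_mem h5 h4) hy
      convert h6 using 1
      ring
    have h3 : w₀.valuation H (((a γ : 𝓞 H) : H) ^ Ideal.absNorm v.asIdeal - (a γ : 𝓞 H)) < 1 := by
      have h4 : w₀.valuation H (algebraMap (𝓞 H) H ((a γ) ^ Ideal.absNorm v.asIdeal - a γ)) < 1 :=
        (HeightOneSpectrum.valuation_lt_one_iff_mem (K := H) w₀ _).mpr h2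
      rw [map_sub, map_pow] at h4
      exact h4
    have h4 := Valuation.map_add_lt _ h1 h3
    convert h4 using 2
    ring
  · rintro w ⟨v', hv', hw⟩ z hz hzw
    rw [Set.mem_singleton_iff] at hv'
    subst hv'
    obtain ⟨α, hα⟩ := hα z hz
    obtain ⟨c, d, hc, hd, hzd⟩ := unit_frac w (z : H) hzw
    obtain ⟨P, hP1, hP2, hP3⟩ := hP w hw
    -- `α d` is an integer
    have he : (α * algebraMap H L (d : H)) ^ N = algebraMap (𝓞 H) L (c * d ^ (N - 1)) := by
      rw [mul_pow, hα, IsScalarTower.algebraMap_apply (𝓞 H) H L, ← map_pow, ← map_mul]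
      congr 1
      rw [map_mul, map_pow]
      change _ = (c : H) * (d : H) ^ (N - 1)
      rw [← hzd, mul_assoc, ← pow_succ', Nat.sub_add_cancel hN]
    have hint : IsIntegral (𝓞 H) (α * algebraMap H L (d : H)) :=
      IsIntegral.of_pow hN (by rw [he]; exact isIntegral_algebraMap)
    have hint' : IsIntegral ℤ (α * algebraMap H L (d : H)) :=
      isIntegral_trans _ hint
    obtain ⟨e, he'⟩ : ∃ e : 𝓞 L, algebraMap (𝓞 L) L e = α * algebraMap H L (d : H) :=
      ⟨⟨_, hint'⟩, rfl⟩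
    have heN : e ^ N = algebraMap (𝓞 H) (𝓞 L) (c * d ^ (N - 1)) := by
      apply FaithfulSMul.algebraMap_injective (𝓞 L) L
      rw [map_pow, he', he]
      rfl
    have hcd : c * d ^ (N - 1) ∉ w.asIdeal := by
      intro h
      rcases w.isPrime.mem_or_mem h with h | h
      · exact hc h
      · exact hd (w.isPrime.mem_of_pow_mem _ h)
    have heP : e ∉ P.asIdeal := by
      intro h
      apply hcd
      rw [← hP1, Ideal.mem_comap, ← heN]
      exact Ideal.pow_mem_of_mem _ h _ hN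
    obtain ⟨y, hy⟩ := residue v' P hP2 hP3 e
    have hyw : algebraMap (𝓞 F) (𝓞 H) y ∉ w.asIdeal := by
      intro h
      apply heP
      have h1 : algebraMap (𝓞 F) (𝓞 L) y ∈ P.asIdeal := by
        rw [← hcomp, ← Ideal.mem_comap, hP1]
        exact h
      have h2 := P.asIdeal.add_mem hy h1
      rwa [sub_add_cancel] at h2
    have hdiff : c * d ^ (N - 1) - (algebraMap (𝓞 F) (𝓞 H) y) ^ N ∈ w.asIdeal := by
      rw [← hP1, Ideal.mem_comap, map_sub, ← heN, map_pow, hcomp]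
      exact Ideal.mem_of_dvd _ (sub_dvd_pow_sub_pow _ _ _) hy
    have hvd : w.valuation H (algebraMap (𝓞 H) H d) = 1 :=
      (HeightOneSpectrum.valuation_eq_one_iff_notMem (K := H) w).mpr hd
    have hvy : w.valuation H (algebraMap (𝓞 H) H (algebraMap (𝓞 F) (𝓞 H) y)) = 1 :=
      (HeightOneSpectrum.valuation_eq_one_iff_notMem (K := H) w).mpr hyw
    have hvdiff : w.valuation H (algebraMap (𝓞 H) H
        (c * d ^ (N - 1) - (algebraMap (𝓞 F) (𝓞 H) y) ^ N)) < 1 :=
      (HeightOneSpectrum.valuation_lt_one_iff_mem (K := H) w _).mpr hdiff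
    have hd0 : algebraMap (𝓞 H) H d ≠ 0 := by
      intro h; rw [h, map_zero] at hvd; exact zero_ne_one hvd
    have hy0 : algebraMap (𝓞 H) H (algebraMap (𝓞 F) (𝓞 H) y) ≠ 0 := by
      intro h; rw [h, map_zero] at hvy; exact zero_ne_one hvy
    refine ⟨Units.mk0 (algebraMap (𝓞 H) H (algebraMap (𝓞 F) (𝓞 H) y) / algebraMap (𝓞 H) H d)
      (div_ne_zero hy0 hd0), ?_, ?_⟩
    · rw [Units.val_mk0, map_div₀, hvy, hvd, div_one]
    · rw [Units.val_mk0]
      have h1 : (z : H) - (algebraMap (𝓞 H) H (algebraMap (𝓞 F) (𝓞 H) y) /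
          algebraMap (𝓞 H) H d) ^ N = algebraMap (𝓞 H) H
          (c * d ^ (N - 1) - (algebraMap (𝓞 F) (𝓞 H) y) ^ N) / (algebraMap (𝓞 H) H d) ^ N := by
        rw [eq_div_iff (pow_ne_zero _ hd0), sub_mul, div_pow, div_mul_cancel₀ _ (pow_ne_zero _ hd0),
          map_sub, map_mul, map_pow, map_pow]
        congr 1
        change _ = (c : H) * (d : H) ^ (N - 1)
        rw [← hzd, mul_assoc, ← pow_succ', Nat.sub_add_cancel hN]
      rw [h1, map_div₀, map_pow, hvd, one_pow, div_one]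
      exact hvdiff

end Pool.Agent.K3h43.RS
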